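import Pool.Agent.W669.HD.Stm5
import Pool.Agent.W155.HD.K4

/-! HD5-GOOD5: the two inequalities for the quadratic forms. -/

set_option autoImplicit false

namespace Pool.Agent.W863.HD.Good5

open Pool.Agent.W666.GB Pool.Agent.W669.HD Finset

/-- components with respect to four vectors -/
noncomputable def tl (v : Fin 4 → Fin 5 → ℝ) (K : Q5) (p q r s : Fin 4) : ℝ :=
  ∑ i, ∑ j, ∑ k, ∑ l, v p i * v q j * v r k * v s l * K i j k l

theorem tl12 (v : Fin 4 → Fin 5 → ℝ) (K : Q5) (p q r s : Fin 4) :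
    tl v K q p r s = tl v (fun i j k l => K j i k l) p q r s := by
  unfold tl
  rw [Finset.sum_comm]
  refine Finset.sum_congr rfl fun i _ => Finset.sum_congr rfl fun j _ =>
    Finset.sum_congr rfl fun k _ => Finset.sum_congr rfl fun l _ => ?_
  ring

theorem tl23 (v : Fin 4 → Fin 5 → ℝ) (K : Q5) (p q r s : Fin 4) :
    tl v K p r q s = tl v (fun i j k l => K i k j l) p q r s := by
  unfold tl
  refine Finset.sum_congr rfl fun i _ => ?_
  rw [Finset.sum_comm]
  refine Finset.sum_congr rfl fun j _ =>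
    Finset.sum_congr rfl fun k _ => Finset.sum_congr rfl fun l _ => ?_
  ring

theorem tl34 (v : Fin 4 → Fin 5 → ℝ) (K : Q5) (p q r s : Fin 4) :
    tl v K p q s r = tl v (fun i j k l => K i j l k) p q r s := by
  unfold tl
  refine Finset.sum_congr rfl fun i _ => Finset.sum_congr rfl fun j _ => ?_
  rw [Finset.sum_comm]
  refine Finset.sum_congr rfl fun k _ => Finset.sum_congr rfl fun l _ => ?_
  ring

theorem tl_neg (v : Fin 4 → Fin 5 → ℝ) (K : Q5) (p q r s : Fin 4) :
    tl v (fun i j k l => - K i j k l) p q r s = - tl v K p q r s := by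
  unfold tl
  simp only [mul_neg, Finset.sum_neg_distrib]

theorem tl_add (v : Fin 4 → Fin 5 → ℝ) (K L : Q5) (p q r s : Fin 4) :
    tl v (fun i j k l => K i j k l + L i j k l) p q r s = tl v K p q r s + tl v L p q r s := by
  unfold tl
  simp only [mul_add, Finset.sum_add_distrib]

theorem tl_zero (v : Fin 4 → Fin 5 → ℝ) (p q r s : Fin 4) :
    tl v (fun _ _ _ _ => 0) p q r s = 0 := by
  unfold tl
  simp only [mul_zero, Finset.sum_const_zero]

theorem quad {α β : Type} [Fintype α] [Fintype β] (X : α → α → ℝ) (Y : β → β → ℝ) :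
    ∑ i, ∑ j, ∑ k, ∑ l, X i j * Y k l = (∑ i, ∑ j, X i j) * (∑ k, ∑ l, Y k l) := by
  rw [Finset.sum_mul]
  refine Finset.sum_congr rfl fun i _ => ?_
  rw [Finset.sum_mul]
  refine Finset.sum_congr rfl fun j _ => ?_
  rw [Finset.mul_sum]
  refine Finset.sum_congr rfl fun k _ => ?_
  rw [Finset.mul_sum]

theorem tl_sum (v : Fin 4 → Fin 5 → ℝ) {n : ℕ} (μ : Fin n → Fin 5 → Fin 5 → ℝ)
    (p q r s : Fin 4) :
    tl v (fun i j k l => ∑ a, μ a i j * μ a k l) p q r s
      = ∑ a, (∑ i, ∑ j, v p i * v q j * μ a i j) * (∑ i, ∑ j, v r i * v s j * μ a i j) := by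
  have h1 : ∀ a, (∑ i, ∑ j, v p i * v q j * μ a i j) * (∑ i, ∑ j, v r i * v s j * μ a i j)
      = ∑ i, ∑ j, ∑ k, ∑ l, (v p i * v q j * μ a i j) * (v r k * v s l * μ a k l) := fun a =>
    (quad (fun i j => v p i * v q j * μ a i j) (fun k l => v r k * v s l * μ a k l)).symm
  simp only [h1]
  unfold tl
  conv_rhs => rw [Finset.sum_comm]
  refine Finset.sum_congr rfl fun i _ => ?_
  conv_rhs => rw [Finset.sum_comm]
  refine Finset.sum_congr rfl fun j _ => ?_
  conv_rhs => rw [Finset.sum_comm]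
  refine Finset.sum_congr rfl fun k _ => ?_
  conv_rhs => rw [Finset.sum_comm]
  refine Finset.sum_congr rfl fun l _ => ?_
  show _ * (∑ a, μ a i j * μ a k l) = _
  rw [Finset.mul_sum]
  refine Finset.sum_congr rfl fun a _ => ?_
  ring

theorem sumF (f : (Fin 4 → Fin 5) → ℝ) :
    ∑ F, f F = ∑ x : Fin 5 × Fin 5, ∑ y : Fin 5 × Fin 5, f ![x.1, x.2, y.1, y.2] := by
  let e : (Fin 5 × Fin 5) × (Fin 5 × Fin 5) ≃ (Fin 4 → Fin 5) :=
    { toFun := fun z => ![z.1.1, z.1.2, z.2.1, z.2.2]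
      invFun := fun F => ((F 0, F 1), (F 2, F 3))
      left_inv := fun z => by simp
      right_inv := fun F => by
        funext i
        fin_cases i <;> rfl }
  rw [← e.sum_comp, Fintype.sum_prod_type]
  rfl

theorem quad2 {α : Type} [Fintype α] (X Y : α → α → ℝ) :
    ∑ x, ∑ y, ∑ x', ∑ y', X x x' * Y y y' = (∑ x, ∑ x', X x x') * (∑ y, ∑ y', Y y y') := by
  rw [Finset.sum_mul_sum]
  refine Finset.sum_congr rfl fun x _ => Finset.sum_congr rfl fun y _ => ?_
  rw [Finset.sum_mul_sum]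

theorem tl_pair (v : Fin 4 → Fin 5 → ℝ) (K : Q5) (p q r s : Fin 4) :
    tl v K p q r s = ∑ x : Fin 5 × Fin 5, ∑ x' : Fin 5 × Fin 5,
      v p x.1 * v q x.2 * v r x'.1 * v s x'.2 * K x.1 x.2 x'.1 x'.2 := by
  unfold tl
  rw [Fintype.sum_prod_type]
  refine Finset.sum_congr rfl fun i _ => Finset.sum_congr rfl fun j _ => ?_
  rw [Fintype.sum_prod_type]

theorem inner_eq (v : Fin 4 → Fin 5 → ℝ) (K L : Q5) (π π' : Equiv.Perm (Fin 4)) :
    ∑ F : Fin 4 → Fin 5, ∑ G : Fin 4 → Fin 5,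
      K (F 0) (F 1) (G 0) (G 1) * L (F 2) (F 3) (G 2) (G 3) *
        ((sn π * ∏ i, v (π i) (F i)) * (sn π' * ∏ i, v (π' i) (G i)))
      = sn π * sn π' * (tl v K (π 0) (π 1) (π' 0) (π' 1) * tl v L (π 2) (π 3) (π' 2) (π' 3)) := by
  rw [tl_pair, tl_pair, ← quad2, sumF]
  simp only [sumF, Finset.mul_sum]
  refine Finset.sum_congr rfl fun x _ => Finset.sum_congr rfl fun y _ =>
    Finset.sum_congr rfl fun x' _ => Finset.sum_congr rfl fun y' _ => ?_
  simp only [Fin.prod_univ_four, Matrix.cons_val]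
  ring

theorem qf_eq (v : Fin 4 → Fin 5 → ℝ) (K : Q5) (Z : (Fin 4 → Fin 5) → ℝ)
    (hZ : ∀ F, Z F = ∑ π : Equiv.Perm (Fin 4), sn π * ∏ i, v (π i) (F i)) :
    qf K K Z = kap (tl v K) := by
  unfold qf kap
  have h1 : ∀ F G : Fin 4 → Fin 5,
      K (F 0) (F 1) (G 0) (G 1) * K (F 2) (F 3) (G 2) (G 3) * (Z F * Z G)
      = ∑ π : Equiv.Perm (Fin 4), ∑ π' : Equiv.Perm (Fin 4),
        K (F 0) (F 1) (G 0) (G 1) * K (F 2) (F 3) (G 2) (G 3) *
          ((sn π * ∏ i, v (π i) (F i)) * (sn π' * ∏ i, v (π' i) (G i))) := by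
    intro F G
    rw [hZ F, hZ G, Finset.sum_mul_sum, Finset.mul_sum]
    refine Finset.sum_congr rfl fun π _ => ?_
    rw [Finset.mul_sum]
  simp only [h1]
  have h2 : ∀ F : Fin 4 → Fin 5, ∑ G : Fin 4 → Fin 5, ∑ π : Equiv.Perm (Fin 4),
      ∑ π' : Equiv.Perm (Fin 4),
        K (F 0) (F 1) (G 0) (G 1) * K (F 2) (F 3) (G 2) (G 3) *
          ((sn π * ∏ i, v (π i) (F i)) * (sn π' * ∏ i, v (π' i) (G i)))
      = ∑ π : Equiv.Perm (Fin 4), ∑ π' : Equiv.Perm (Fin 4), ∑ G : Fin 4 → Fin 5,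
        K (F 0) (F 1) (G 0) (G 1) * K (F 2) (F 3) (G 2) (G 3) *
          ((sn π * ∏ i, v (π i) (F i)) * (sn π' * ∏ i, v (π' i) (G i))) := by
    intro F
    rw [Finset.sum_comm]
    refine Finset.sum_congr rfl fun π _ => ?_
    rw [Finset.sum_comm]
  simp only [h2]
  rw [Finset.sum_comm]
  refine Finset.sum_congr rfl fun π _ => ?_
  rw [Finset.sum_comm]
  refine Finset.sum_congr rfl fun π' _ => ?_
  exact inner_eq v K K π π'

theorem good5 : S_DEC → S_GOOD5 := by
  intro hDEC P Ω n μ hP hΩ hμ hK Z hZ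
  obtain ⟨v, hv⟩ := hDEC Z hZ
  have hqP := qf_eq v P Z hv
  have hqΩ := qf_eq v Ω Z hv
  have hqK := qf_eq v (fun i j k l => P i j k l + Ω i j k l) Z hv
  have hC : Cur4 (tl v P) := by
    refine ⟨?_, ?_, ?_⟩
    · intro p q r s
      rw [tl12, ← tl_neg]
      congr 1
      funext i j k l
      exact hP.a12 i j k l
    · intro p q r s
      rw [tl23, tl12, tl34, tl23]
      congr 1
      funext i j k l
      exact hP.pair i j k l
    · intro p q r s
      have e1 : tl v P q r p s = tl v (fun i j k l => P j k i l) p q r s := by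
        rw [tl23, tl12]
      have e2 : tl v P r p q s = tl v (fun i j k l => P k i j l) p q r s := by
        rw [tl12, tl23]
      rw [e1, e2, ← tl_add, ← tl_add, ← tl_zero v p q r s]
      congr 1
      funext i j k l
      exact hP.bia i j k l
  have hO : ∀ i j k l, tl v Ω i j k l = tl v Ω 0 1 2 3 * eps i j k l := by
    intro i j k l
    refine alt_eps ?_ ?_ ?_ i j k l
    · intro p q r s
      rw [tl12, ← tl_neg]
      congr 1
      funext i j k l
      exact hΩ.a12 i j k l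
    · intro p q r s
      rw [tl23, ← tl_neg]
      congr 1
      funext i j k l
      exact hΩ.a23 i j k l
    · intro p q r s
      rw [tl34, ← tl_neg]
      congr 1
      funext i j k l
      exact hΩ.a34 i j k l
  have hO' : tl v Ω = fun i j k l => tl v Ω 0 1 2 3 * eps i j k l := by
    funext i j k l
    exact hO i j k l
  obtain ⟨h1, h2, h3⟩ := Pool.Agent.W155.HD.K4.k4 (tl v P)
    (tl v (fun i j k l => P i j k l + Ω i j k l)) (tl v Ω 0 1 2 3) n
    (fun a p q => ∑ i, ∑ j, v p i * v q j * μ a i j) hC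
    (by
      intro i j k l
      rw [tl_add, hO i j k l])
    (by
      intro a p q
      rw [Finset.sum_comm, ← Finset.sum_neg_distrib]
      refine Finset.sum_congr rfl fun i _ => ?_
      rw [← Finset.sum_neg_distrib]
      refine Finset.sum_congr rfl fun j _ => ?_
      rw [hμ]
      ring)
    (by
      intro p q r s
      have : (fun i j k l => P i j k l + Ω i j k l)
          = (fun i j k l => ∑ a, μ a i j * μ a k l) := by
        funext i j k l
        exact hK i j k l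
      rw [this, tl_sum])
  rw [hqP, hqΩ, hqK, hO']
  constructor
  · linarith
  · exact h2

end Pool.Agent.W863.HD.Good5
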